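import Pool.Agent.Lib.MP_3d6951_co.Defs
import Pool.Agent.Lib.MP_3d6951_co.Final

set_option autoImplicit false

/-!
# The homology classes of highway paths need not form a polyhedron

The surface is the closed disc of radius `20` minus two open discs of radius `1`; it is a compact
connected oriented surface of genus `0` with three boundary components.  We exhibit an oriented
network in it and two boundary vertices `u`, `v` such that the set `H(u, v)` is not the set of integer
solutions of any finite system of affine linear inequalities.  All definitions used in the statement
are in `Pool.Agent.Lib.MP_3d6951_co.Defs`.
-/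

namespace Pool.Agent.Results.MP_3d6951_co.NotPolyhedral

open Pool.Agent.Lib.MP_3d6951_co

/-- There are an oriented network `N` in the disc with two holes and boundary vertices `u`, `v` of `N`
such that, for every basepath `p` from `u` to `v`, the set `H(u, v)` of the homology classes of the
highway paths from `u` to `v` is not polyhedral. -/
theorem result : ∃ (N : Network surface) (u v : N.V),
    N.pos u ∈ frontier surface ∧ N.pos v ∈ frontier surface ∧
      ∀ p : Path (N.pt u) (N.pt v), ¬ IsPolyhedral (N.H p) := by
  refine ⟨net, Vx.u, Vx.v, ?_, ?_, not_polyhedral⟩
  · exact ⟨subset_closure (net.pos_mem _), fun h => by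
      have := (Vx.mem_interior_iff Vx.u).1 h
      exact absurd this (by decide)⟩
  · exact ⟨subset_closure (net.pos_mem _), fun h => by
      have := (Vx.mem_interior_iff Vx.v).1 h
      exact absurd this (by decide)⟩

end Pool.Agent.Results.MP_3d6951_co.NotPolyhedral
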